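import Pool.Agent.helper95.FI.SpecT

/-! Row LAT: the slope of the lattice of a pair. -/

set_option autoImplicit false

open Finset

noncomputable section

namespace Pool.Agent.FI

theorem LAT_cop {e : ℕ} (he : e = 1 ∨ e = 2) {z : ℤ × ℤ} (hz : z.1 % 2 = 1) (hc : IsCoprime z.1 z.2) :
    ∃ p q : ℤ, p * (e * z.2) + q * z.1 = 1 := by
  have h2 : IsCoprime (e : ℤ) z.1 := by
    rcases he with rfl | rfl
    · exact isCoprime_one_left
    · refine ⟨-(z.1 / 2), 1, ?_⟩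
      push_cast
      omega
  exact (h2.mul_left hc.symm)

theorem LAT : LAT_stmt := by
  have key : ∀ (e : ℕ) (z z' : ℤ × ℤ), ∃ ω : ℤ, (e = 1 ∨ e = 2) → z.1 % 2 = 1 → z'.1 % 2 = 1 →
      IsCoprime z.1 z.2 → IsCoprime z'.1 z'.2 → dl z z' ≠ 0 →
      IsCoprime ω (e * dl z z') ∧ ∀ l₁ l₂ : ℤ,
        (∃ u v : ℤ, l₁ = z.1 * v + e * z.2 * u ∧ l₂ = z'.1 * v + e * z'.2 * u) ↔
          e * dl z z' ∣ l₂ - ω * l₁ := by
    intro e z z'
    by_cases hh : (e = 1 ∨ e = 2) ∧ z.1 % 2 = 1 ∧ z'.1 % 2 = 1 ∧ IsCoprime z.1 z.2 ∧ IsCoprime z'.1 z'.2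
    · obtain ⟨he, hz, hz', hc, hc'⟩ := hh
      obtain ⟨p, q, hpq⟩ := LAT_cop he hz hc
      obtain ⟨p', q', hpq'⟩ := LAT_cop he hz' hc'
      refine ⟨p * e * z'.2 + q * z'.1, fun _ _ _ _ _ _ => ⟨⟨p' * e * z.2 + q' * z.1, q' * p - p' * q, ?_⟩, ?_⟩⟩
      · unfold dl
        linear_combination (p' * e * z'.2 + q' * z'.1) * hpq + hpq'
      · intro l₁ l₂
        constructor
        · rintro ⟨u, v, rfl, rfl⟩
          refine ⟨v * p - u * q, ?_⟩
          unfold dl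
          linear_combination (-(z'.1 * v + e * z'.2 * u)) * hpq
        · rintro ⟨k, hk⟩
          refine ⟨p * l₁ - z.1 * k, q * l₁ + e * z.2 * k, ?_, ?_⟩
          · linear_combination (-l₁) * hpq
          · unfold dl at hk
            linear_combination hk
    · refine ⟨0, fun h1 h2 h3 h4 h5 _ => absurd ⟨h1, h2, h3, h4, h5⟩ hh⟩
  choose om hom using key
  exact ⟨om, fun e he z z' h1 h2 h3 h4 h5 => hom e z z' he h1 h2 h3 h4 h5⟩

end Pool.Agent.FI
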